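import Pool.Agent.helper34.SE.Fin

/-!
# MP_dc5fcd_co: strong 7-edge-colourings when every vertex of degree 3 has a neighbour of degree at most 2
-/

set_option autoImplicit false

namespace Pool.Agent.Results.MP_dc5fcd_co.SevenColours

/-- Every finite bipartite graph of maximum degree at most 3 without 4-cycles, in which every vertex of degree 3 has a neighbour of
degree at most 2, has a strong edge colouring with 7 colours. -/
theorem result :
    ∀ (V : Type) [Fintype V] (G : SimpleGraph V),
      G.Colorable 2 →
      (∀ v : V, (G.neighborSet v).ncard ≤ 3) →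
      (∀ (v : V) (p : G.Walk v v), p.IsCycle → p.length ≠ 4) →
      (∀ v : V, (G.neighborSet v).ncard = 3 → ∃ w, G.Adj v w ∧ (G.neighborSet w).ncard ≤ 2) →
      ∃ c : Sym2 V → Fin 7,
        ∀ e ∈ G.edgeSet, ∀ f ∈ G.edgeSet, e ≠ f →
          (∃ u w : V, u ∈ e ∧ w ∈ f ∧ (u = w ∨ G.Adj u w)) →
            c e ≠ c f :=
  fun V _ G => Pool.Agent.helper34.SE.strong_seven V G

end Pool.Agent.Results.MP_dc5fcd_co.SevenColours
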